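import Pool.Agent.K3h88.Erde.Stm2

/-!
# Edges respect the groups `D s`; components of the initial colouring
-/

set_option autoImplicit false

namespace Pool.Agent.K3h34.Erde

open Pool.Agent.K3h88.Erde Classical

section

variable {m a : ℕ} (G : GD m a) (L : ℕ)

theorem add_self2 (x : Fin a → ZMod 2) : x + x = 0 := by
  funext i
  exact CharTwo.add_self_eq_zero (x i)

theorem cancel2 (x y : Fin a → ZMod 2) : x + (x + y) = y := by
  rw [← add_assoc, add_self2, zero_add]

theorem cancel2' (x y : Fin a → ZMod 2) : x + y + y = x := by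
  rw [add_assoc, add_self2, add_zero]

theorem pidx_b (p : ℕ) (hp : p < m) : G.pidx (G.b p) = p := by
  unfold GD.pidx
  have h : ∃ q, q < m ∧ G.b q = G.b p := ⟨p, hp, rfl⟩
  rw [dif_pos h]
  exact G.binj _ _ h.choose_spec.1 hp h.choose_spec.2

theorem b_pidx (δ : Fin a → ZMod 2) (h : ∃ p, p < m ∧ G.b p = δ) :
    G.pidx δ < m ∧ G.b (G.pidx δ) = δ := by
  unfold GD.pidx
  rw [dif_pos h]
  exact h.choose_spec

theorem c_lt (l : ℕ) (hl : l + 1 < m) : G.c l = G.b l + G.b (l + 1) := by
  unfold GD.c
  rw [if_pos hl]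

theorem c_last (l : ℕ) (hl : ¬ l + 1 < m) : G.c l = G.b l := by
  unfold GD.c
  rw [if_neg hl]

theorem c_single (l : ℕ) (hl : l + 1 < m) : G.c l = Pi.single (G.κ l) 1 := by
  rw [c_lt G l hl, G.bstep l hl, cancel2]

theorem c_nx (l : ℕ) (h : G.nx l + 1 < m) : G.c l = G.c (G.nx l) := by
  have h1 := G.nxlt l
  rw [c_single G l (by omega), c_single G (G.nx l) h, G.nxk l h]

theorem st_succ (p : ℕ) : st m L (p + 1) = st m L p + ev m L p := by
  funext i
  simp only [st, ev, Pi.add_apply]
  by_cases h1 : (i : ℕ) < p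
  · rw [if_pos (by omega), if_pos h1, if_neg (by omega), add_zero]
  · by_cases h2 : (i : ℕ) = p
    · rw [if_pos (by omega), if_neg h1, if_pos h2, zero_add]
    · rw [if_neg (by omega), if_neg h1, if_neg h2, zero_add]

theorem st_zero : st m L 0 = 0 := by
  funext i
  simp [st]

theorem top_mem (s : ℕ) : st m L m ∈ G.D L s :=
  AddSubgroup.subset_closure (Or.inl rfl)

theorem ww_mem {s i : ℕ} (h : i < s) : G.ww L i ∈ G.D L s :=
  AddSubgroup.subset_closure (Or.inr ⟨i, h, rfl⟩)

/-- the core computation -/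
theorem phi_step (hA : AlgProps G L) (α : Fin a → ZMod 2) (y : Fin m → ZMod L) (l p p' : ℕ)
    (hl : l < m) (hp : p < m) (hp' : p' < m) (h1 : G.chi L y + α = G.b p)
    (h2 : G.b p + G.c l = G.b p') :
    G.phi L α y - G.phi L α (y + ev m L l) = st m L p' - st m L p - ev m L l := by
  unfold GD.phi
  have e1 : G.chi L (y + ev m L l) + α = G.b p' := by
    rw [hA.chi_add, hA.chi_ev l hl, ← h2, ← h1]
    abel
  rw [e1, h1, pidx_b G p hp, pidx_b G p' hp']
  abel

theorem congr_core (hA : AlgProps G L) (hL : LamProps G L) (s : ℕ) (α : Fin a → ZMod 2)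
    (y : Fin m → ZMod L) (l : ℕ) (hs : s + 1 ≤ m) (hl : l < m) (hT : G.T L s y l = α) :
    G.phi L α y - G.phi L α (y + ev m L l) ∈ G.D L s := by
  have hp := hL.lam_lt s y l hs hl
  have h1 : G.chi L y + α = G.b (G.lam L s y l) := by
    rw [← hT]
    unfold GD.T
    rw [cancel2]
  have hm := G.hm
  rcases hL.lam_form s y l hs hl with h | ⟨hls, hn, h⟩ | ⟨hls, hn, h⟩ | ⟨j, hj, hjl, hn, h⟩
  · rw [h] at hp h1
    by_cases hl1 : l + 1 < m
    · rw [phi_step G L hA α y l l (l + 1) hl hp hl1 h1 (by rw [c_lt G l hl1, cancel2]),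
        st_succ]
      have : st m L l + ev m L l - st m L l - ev m L l = 0 := by abel
      rw [this]
      exact zero_mem _
    · have hlm : l = m - 1 := by omega
      rw [phi_step G L hA α y l l 0 hl hp (by omega) h1 (by rw [c_last G l hl1, add_self2, G.b0]),
        st_zero]
      have : (0 : Fin m → ZMod L) - st m L l - ev m L l = - st m L m := by
        have e : m = l + 1 := by omega
        have e2 : st m L m = st m L (l + 1) := by rw [← e]
        rw [e2, st_succ]
        abel
      rw [this]
      exact neg_mem (top_mem G L s)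
  · rw [h] at hp h1
    rw [phi_step G L hA α y l (G.nx l) (G.nx l + 1) hl hp hn h1
      (by rw [c_nx G l hn, c_lt G (G.nx l) hn, cancel2]), st_succ]
    have : st m L (G.nx l) + ev m L (G.nx l) - st m L (G.nx l) - ev m L l = - G.ww L l := by
      unfold GD.ww
      rw [if_pos hn]
      abel
    rw [this]
    exact neg_mem (ww_mem G L hls)
  · rw [h] at hp h1
    rw [phi_step G L hA α y l (l + 1) l hl hp hl h1
      (by rw [c_lt G l hp, add_comm, cancel2']), st_succ]
    have : st m L l - (st m L l + ev m L l) - ev m L l = - G.ww L l := by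
      unfold GD.ww
      rw [if_neg hn]
      abel
    rw [this]
    exact neg_mem (ww_mem G L hls)
  · rw [h] at hp h1
    have hjn := G.nxlt j
    have hj1 : j + 1 < m := by omega
    rw [phi_step G L hA α y l j (j + 1) hl hp hj1 h1
      (by rw [← hjl, ← c_nx G j hn, c_lt G j hj1, cancel2]), st_succ]
    have : st m L j + ev m L j - st m L j - ev m L l = G.ww L j := by
      unfold GD.ww
      rw [if_pos hn, hjl]
      abel
    rw [this]
    exact ww_mem G L hj

end

theorem congr : StmCongr := by
  intro m a G L _ _ hA hLam s α y z hs hadj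
  unfold GD.gr at hadj
  rw [SimpleGraph.fromRel_adj] at hadj
  obtain ⟨_, ⟨l, hl, rfl, hT⟩ | ⟨l, hl, rfl, hT⟩⟩ := hadj
  · exact congr_core G L hA hLam s α y l hs hl hT
  · have := congr_core G L hA hLam s α z l hs hl hT
    have h2 := neg_mem this
    rwa [neg_sub] at h2

section

variable {m a : ℕ} (G : GD m a) (L : ℕ)

theorem chi_zero (hA : AlgProps G L) : G.chi L 0 = 0 := by
  have := hA.chi_add 0 0
  rw [add_zero] at this
  exact left_eq_add.1 this

theorem chi_st (hA : AlgProps G L) (p : ℕ) (hp : p < m) : G.chi L (st m L p) = G.b p := by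
  induction p with
  | zero => rw [st_zero, chi_zero G L hA, G.b0]
  | succ p ih => rw [st_succ, hA.chi_add, ih (by omega), hA.chi_ev p (by omega), c_lt G p hp, cancel2]

theorem chi_top (hA : AlgProps G L) : G.chi L (st m L m) = 0 := by
  have hm := G.hm
  have e : m = (m - 1) + 1 := by omega
  have e2 : st m L m = st m L ((m - 1) + 1) := by rw [← e]
  rw [e2, st_succ, hA.chi_add, chi_st G L hA (m - 1) (by omega), hA.chi_ev _ (by omega),
    c_last G _ (by omega), add_self2]

theorem ev_ne (hL : 4 ≤ L) (p : ℕ) (hp : p < m) : ev m L p ≠ 0 := by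
  intro h
  have := congrFun h ⟨p, hp⟩
  simp only [ev, Pi.zero_apply, if_true] at this
  have h1 : ((1 : ℕ) : ZMod L) = 0 := by exact_mod_cast this
  rw [ZMod.natCast_eq_zero_iff] at h1
  have := Nat.le_of_dvd (by norm_num) h1
  omega

theorem reach_st (hL : 4 ≤ L) (hA : AlgProps G L) (α : Fin a → ZMod 2) (x : Fin m → ZMod L)
    (hx : G.chi L x = α) (p : ℕ) (hp : p ≤ m) : (G.gr L 0 α).Reachable x (x + st m L p) := by
  induction p with
  | zero => rw [st_zero, add_zero]
  | succ p ih =>
    refine (ih (by omega)).trans (SimpleGraph.Adj.reachable ?_)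
    unfold GD.gr
    rw [SimpleGraph.fromRel_adj]
    have e : x + st m L (p + 1) = (x + st m L p) + ev m L p := by rw [st_succ]; abel
    refine ⟨?_, Or.inl ⟨p, by omega, e, ?_⟩⟩
    · rw [e]
      intro h
      exact ev_ne L hL p (by omega) (left_eq_add.1 h)
    · unfold GD.T
      show G.chi L (x + st m L p) + G.b p = α
      rw [hA.chi_add, chi_st G L hA p (by omega), cancel2', hx]

theorem reach_nsmul (hL : 4 ≤ L) (hA : AlgProps G L) (α : Fin a → ZMod 2) (x : Fin m → ZMod L)
    (hx : G.chi L x = α) (k : ℕ) : (G.gr L 0 α).Reachable x (x + k • st m L m) ∧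
      G.chi L (x + k • st m L m) = α := by
  induction k with
  | zero => rw [zero_smul, add_zero]; exact ⟨SimpleGraph.Reachable.refl _, hx⟩
  | succ k ih =>
    have e : x + (k + 1) • st m L m = (x + k • st m L m) + st m L m := by
      rw [succ_nsmul]; abel
    rw [e]
    refine ⟨ih.1.trans (reach_st G L hL hA α _ ih.2 m le_rfl), ?_⟩
    rw [hA.chi_add, ih.2, chi_top G L hA, add_zero]

theorem reach_phi (hL : 4 ≤ L) (hA : AlgProps G L) (α : Fin a → ZMod 2) (z : Fin m → ZMod L)
    (hz : G.Cov L α z) : (G.gr L 0 α).Reachable (G.phi L α z) z ∧ G.chi L (G.phi L α z) = α := by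
  obtain ⟨h1, h2⟩ := b_pidx G (G.chi L z + α) hz
  set p := G.pidx (G.chi L z + α) with hp
  have e : G.phi L α z + st m L p = z := by
    unfold GD.phi
    rw [← hp]
    abel
  have h3 : G.chi L (G.phi L α z) = α := by
    have h4 := hA.chi_add (G.phi L α z) (st m L p)
    rw [e, chi_st G L hA p h1, h2] at h4
    have h5 : G.chi L z + (G.chi L z + α) =
        G.chi L (G.phi L α z) + (G.chi L z + α) + (G.chi L z + α) := by
      rw [add_comm (G.chi L z) (G.chi L z + α)]
      conv_lhs => rw [h4]
      rw [← h4]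
      rw [h4]
      abel
    rw [cancel2, cancel2'] at h5
    exact h5.symm
  refine ⟨?_, h3⟩
  have := reach_st G L hL hA α (G.phi L α z) h3 p h1.le
  rwa [e] at this

end

theorem conn0 : StmConn0 := by
  intro m a G L hL _ hA α y z hy hz hd
  obtain ⟨ry, cy⟩ := reach_phi G L hL hA α y hy
  obtain ⟨rz, cz⟩ := reach_phi G L hL hA α z hz
  have hD : G.D L 0 = AddSubgroup.zmultiples (st m L m) := by
    unfold GD.D
    rw [AddSubgroup.zmultiples_eq_closure]
    congr 1
    ext w
    simp
  rw [hD, AddSubgroup.mem_zmultiples_iff] at hd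
  obtain ⟨k, hk⟩ := hd
  have key : (G.gr L 0 α).Reachable (G.phi L α y) (G.phi L α z) := by
    rcases Int.le_total 0 k with h | h
    · obtain ⟨n, rfl⟩ := Int.eq_ofNat_of_zero_le h
      have := (reach_nsmul G L hL hA α _ cz n).1
      have e : G.phi L α z + n • st m L m = G.phi L α y := by
        rw [natCast_zsmul] at hk
        rw [hk]
        abel
      rw [e] at this
      exact this.symm
    · obtain ⟨n, hn⟩ := Int.eq_ofNat_of_zero_le (Int.neg_nonneg_of_nonpos h)
      have := (reach_nsmul G L hL hA α _ cy n).1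
      have e : G.phi L α y + n • st m L m = G.phi L α z := by
        have h2 : k = -(n : ℤ) := by omega
        rw [h2, neg_smul, natCast_zsmul] at hk
        have h3 : n • st m L m = -(G.phi L α y - G.phi L α z) := by rw [← hk]; abel
        rw [h3]
        abel
      rw [e] at this
      exact this
  exact (ry.symm.trans key).trans rz

end Pool.Agent.K3h34.Erde
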