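import Pool.Agent.K3h88.Erde.Stm

/-!
# Two Hamiltonian cycles in the product of two cycles
-/

set_option autoImplicit false

namespace Pool.Agent.K3h34.Erde

open Pool.Agent.K3h88.Erde

/-- The edges `s(v, n v)` of a successor map. -/
def nE {V : Type} (n : V → V) : Set (Sym2 V) := {e | ∃ v, e = s(v, n v)}

theorem ishc_of_next {V : Type} [Fintype V] (n : V → V) (c : ℕ → V) (M : ℕ) (hM : 3 ≤ M)
    (hcard : Fintype.card V = M) (h0 : c M = c 0)
    (hinj : ∀ i j, i < M → j < M → c i = c j → i = j)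
    (hn : ∀ t, t < M → c (t + 1) = n (c t)) : IsHC (nE n) := by
  classical
  have hs : ∀ v, ∃ j, j < M ∧ c j = v := by
    have hi : Function.Injective (fun i : Fin M => c i.val) := by
      intro i j h
      exact Fin.ext (hinj _ _ i.isLt j.isLt h)
    have hb : Function.Bijective (fun i : Fin M => c i.val) :=
      (Fintype.bijective_iff_injective_and_card _).2 ⟨hi, by simp [hcard]⟩
    intro v
    obtain ⟨i, hi⟩ := hb.2 v
    exact ⟨i.val, i.isLt, hi⟩
  refine ⟨M, c, ⟨hM, h0, fun i hi j hj h => hinj i j hi hj h⟩, hs, ?_⟩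
  ext e
  constructor
  · rintro ⟨v, rfl⟩
    obtain ⟨j, hj, rfl⟩ := hs v
    exact ⟨j, hj, by rw [hn j hj]⟩
  · rintro ⟨j, hj, rfl⟩
    exact ⟨c j, by rw [hn j hj]⟩

section

variable (A B : ℕ) (hB : 3 ≤ B) (hBA : B ∣ A) (hA : 0 < A) (hco : Nat.Coprime (B - 1) A)

/-- first cycle -/
def c1 (t : ℕ) : ZMod A × ZMod B := (((t / B : ℕ) : ZMod A), (t : ZMod B) - ((t / B : ℕ) : ZMod B))

/-- second cycle -/
def c2 (t : ℕ) : ZMod A × ZMod B := ((t : ZMod A) - ((t / B : ℕ) : ZMod A), ((t / B : ℕ) : ZMod B))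

/-- the sum of the coordinates modulo `B` -/
def sm (v : ZMod A × ZMod B) : ZMod B := (ZMod.cast v.1 : ZMod B) + v.2

open Classical in
/-- successor of the first cycle -/
noncomputable def n1 (v : ZMod A × ZMod B) : ZMod A × ZMod B :=
  if sm A B v = -1 then (v.1 + 1, v.2) else (v.1, v.2 + 1)

open Classical in
/-- successor of the second cycle -/
noncomputable def n2 (v : ZMod A × ZMod B) : ZMod A × ZMod B :=
  if sm A B v = -1 then (v.1, v.2 + 1) else (v.1 + 1, v.2)

include hBA in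
theorem sm_c1 (t : ℕ) : sm A B (c1 A B t) = (t : ZMod B) := by
  unfold sm c1
  simp only
  rw [ZMod.cast_natCast hBA]
  ring

include hBA in
theorem sm_c2 (t : ℕ) : sm A B (c2 A B t) = (t : ZMod B) := by
  unfold sm c2
  simp only
  rw [ZMod.cast_sub hBA, ZMod.cast_natCast hBA, ZMod.cast_natCast hBA]
  ring

theorem neg_one_iff (t : ℕ) : ((t : ZMod B) = -1) ↔ B ∣ t + 1 := by
  rw [← ZMod.natCast_eq_zero_iff, Nat.cast_add, Nat.cast_one, eq_neg_iff_add_eq_zero]

include hBA in
theorem c1_succ (t : ℕ) : c1 A B (t + 1) = n1 A B (c1 A B t) := by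
  have hiff : sm A B (c1 A B t) = -1 ↔ B ∣ t + 1 := by rw [sm_c1 A B hBA t, neg_one_iff]
  unfold n1
  have := Nat.succ_div (a := t) (b := B)
  by_cases h : B ∣ t + 1
  · rw [if_pos (hiff.2 h)]
    rw [if_pos h] at this
    unfold c1
    rw [this]
    refine Prod.ext ?_ ?_
    · simp
    · simp
  · rw [if_neg (fun hh => h (hiff.1 hh))]
    rw [if_neg h] at this
    unfold c1
    rw [this]
    refine Prod.ext ?_ ?_
    · simp
    · simp only [Nat.cast_add, Nat.cast_one, Nat.add_zero]; ring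

include hBA in
theorem c2_succ (t : ℕ) : c2 A B (t + 1) = n2 A B (c2 A B t) := by
  have hiff : sm A B (c2 A B t) = -1 ↔ B ∣ t + 1 := by rw [sm_c2 A B hBA t, neg_one_iff]
  unfold n2
  have := Nat.succ_div (a := t) (b := B)
  by_cases h : B ∣ t + 1
  · rw [if_pos (hiff.2 h)]
    rw [if_pos h] at this
    unfold c2
    rw [this]
    refine Prod.ext ?_ ?_
    · simp
    · simp
  · rw [if_neg (fun hh => h (hiff.1 hh))]
    rw [if_neg h] at this
    unfold c2
    rw [this]
    refine Prod.ext ?_ ?_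
    · simp only [Nat.cast_add, Nat.cast_one, Nat.add_zero]; ring
    · simp

theorem nat_eq_of_cast {N a b : ℕ} (ha : a < N) (hb : b < N)
    (h : (a : ZMod N) = (b : ZMod N)) : a = b := by
  have := (ZMod.natCast_eq_natCast_iff' a b N).1 h
  rwa [Nat.mod_eq_of_lt ha, Nat.mod_eq_of_lt hb] at this

theorem eq_of_div_mod {t t' : ℕ} (h1 : t / B = t' / B) (h2 : (t : ZMod B) = (t' : ZMod B)) :
    t = t' := by
  have h3 := (ZMod.natCast_eq_natCast_iff' t t' B).1 h2
  rw [← Nat.div_add_mod t B, ← Nat.div_add_mod t' B, h1, h3]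

theorem c1_inj (t t' : ℕ) (ht : t < A * B) (ht' : t' < A * B) (h : c1 A B t = c1 A B t') :
    t = t' := by
  have h1 := congrArg Prod.fst h
  have h2 := congrArg Prod.snd h
  simp only [c1] at h1 h2
  have h3 : t / B = t' / B := nat_eq_of_cast (Nat.div_lt_of_lt_mul (by rwa [mul_comm] at ht))
    (Nat.div_lt_of_lt_mul (by rwa [mul_comm] at ht')) h1
  rw [h3] at h2
  exact eq_of_div_mod B h3 (sub_left_injective h2)

include hBA hB hco in
theorem c2_inj (t t' : ℕ) (ht : t < A * B) (ht' : t' < A * B) (h : c2 A B t = c2 A B t') :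
    t = t' := by
  have h0 : (t : ZMod B) = (t' : ZMod B) := by
    rw [← sm_c2 A B hBA t, ← sm_c2 A B hBA t', h]
  have h1 := congrArg Prod.fst h
  simp only [c2] at h1
  have h3 := (ZMod.natCast_eq_natCast_iff' t t' B).1 h0
  have e : ∀ s : ℕ, (s : ZMod A) - ((s / B : ℕ) : ZMod A) =
      ((B - 1 : ℕ) : ZMod A) * ((s / B : ℕ) : ZMod A) + ((s % B : ℕ) : ZMod A) := by
    intro s
    have : (s : ZMod A) = ((B * (s / B) + s % B : ℕ) : ZMod A) := by rw [Nat.div_add_mod]
    rw [this]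
    have hb : ((B - 1 : ℕ) : ZMod A) = (B : ZMod A) - 1 := by
      rw [Nat.cast_sub (by omega)]; simp
    rw [hb]
    have h5 : (B * (s / B) + s % B) / B = s / B := by rw [Nat.div_add_mod]
    push_cast
    ring
  rw [e t, e t', h3] at h1
  have h4 := add_right_cancel h1
  have hu : IsUnit (((B - 1 : ℕ) : ZMod A)) := (ZMod.isUnit_iff_coprime _ _).2 hco
  have h5 := hu.mul_left_cancel h4
  have h6 : t / B = t' / B := nat_eq_of_cast (Nat.div_lt_of_lt_mul (by rwa [mul_comm] at ht))
    (Nat.div_lt_of_lt_mul (by rwa [mul_comm] at ht')) h5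
  exact eq_of_div_mod B h6 h0

include hBA hB in
theorem c1_per (t : ℕ) : c1 A B (t + A * B) = c1 A B t := by
  unfold c1
  rw [Nat.add_mul_div_right t A (by omega)]
  have h1 : ((A : ℕ) : ZMod A) = 0 := ZMod.natCast_self A
  have h2 : ((A : ℕ) : ZMod B) = 0 := (ZMod.natCast_eq_zero_iff A B).2 hBA
  refine Prod.ext ?_ ?_
  · simp
  · simp [h2]

include hBA hB in
theorem c1_top : c1 A B (A * B) = c1 A B 0 := by
  have := c1_per A B hB hBA 0
  rwa [zero_add] at this

include hBA hB in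
theorem c2_top : c2 A B (A * B) = c2 A B 0 := by
  unfold c2
  rw [Nat.mul_div_cancel A (by omega)]
  have h1 : ((A : ℕ) : ZMod A) = 0 := ZMod.natCast_self A
  have h2 : ((A : ℕ) : ZMod B) = 0 := (ZMod.natCast_eq_zero_iff A B).2 hBA
  refine Prod.ext ?_ ?_
  · simp
  · simp [h2]

include hBA in
theorem sm_n1 (v : ZMod A × ZMod B) : sm A B (n1 A B v) = sm A B v + 1 := by
  have h1 : (ZMod.cast (v.1 + 1) : ZMod B) = (ZMod.cast v.1 : ZMod B) + 1 := by
    rw [ZMod.cast_add hBA, ZMod.cast_one hBA]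
  unfold n1
  split_ifs with h
  · unfold sm; simp only [h1]; ring
  · unfold sm; simp only; ring

include hBA in
theorem sm_n2 (v : ZMod A × ZMod B) : sm A B (n2 A B v) = sm A B v + 1 := by
  have h1 : (ZMod.cast (v.1 + 1) : ZMod B) = (ZMod.cast v.1 : ZMod B) + 1 := by
    rw [ZMod.cast_add hBA, ZMod.cast_one hBA]
  unfold n2
  split_ifs with h
  · unfold sm; simp only; ring
  · unfold sm; simp only [h1]; ring

theorem two_ne {N : ℕ} (hN : 3 ≤ N) : (2 : ZMod N) ≠ 0 := by
  intro h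
  have : ((2 : ℕ) : ZMod N) = 0 := by exact_mod_cast h
  rw [ZMod.natCast_eq_zero_iff] at this
  have := Nat.le_of_dvd (by norm_num) this
  omega

theorem one_ne {N : ℕ} (hN : 3 ≤ N) : (1 : ZMod N) ≠ 0 := by
  intro h
  have : ((1 : ℕ) : ZMod N) = 0 := by exact_mod_cast h
  rw [ZMod.natCast_eq_zero_iff] at this
  have := Nat.le_of_dvd (by norm_num) this
  omega

include hBA hB hA in
theorem three_le : 3 ≤ A := le_trans hB (Nat.le_of_dvd hA hBA)

include hBA hB hA in
theorem n_disj : Disjoint (nE (n1 A B)) (nE (n2 A B)) := by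
  rw [Set.disjoint_left]
  rintro e ⟨v, rfl⟩ ⟨w, hw⟩
  rw [Sym2.eq_iff] at hw
  rcases hw with ⟨h1, h2⟩ | ⟨h1, h2⟩
  · subst h1
    have hA3 := one_ne (three_le A B hB hBA hA)
    unfold n1 n2 at h2
    split_ifs at h2 with h
    · have := congrArg Prod.fst h2
      simp at this
      exact hA3 this
    · have := congrArg Prod.fst h2
      simp at this
      exact hA3 this
  · have h3 : sm A B v = sm A B w + 1 := by rw [h1, sm_n2 A B hBA]
    have h4 : sm A B w = sm A B v + 1 := by rw [← h2, sm_n1 A B hBA]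
    rw [h4, add_assoc] at h3
    have : (1 + 1 : ZMod B) = 0 := by
      have := left_eq_add.1 h3
      exact this
    exact two_ne hB (by rw [← one_add_one_eq_two]; exact this)

theorem n_union : boxE (cyE A) (cyE B) = nE (n1 A B) ∪ nE (n2 A B) := by
  have hx : ∀ (x : ZMod A) (y : ZMod B), s((x, y), (x + 1, y)) ∈ nE (n1 A B) ∪ nE (n2 A B) := by
    intro x y
    by_cases h : sm A B (x, y) = -1
    · left; exact ⟨(x, y), by unfold n1; rw [if_pos h]⟩
    · right; exact ⟨(x, y), by unfold n2; rw [if_neg h]⟩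
  have hy : ∀ (x : ZMod A) (y : ZMod B), s((x, y), (x, y + 1)) ∈ nE (n1 A B) ∪ nE (n2 A B) := by
    intro x y
    by_cases h : sm A B (x, y) = -1
    · right; exact ⟨(x, y), by unfold n2; rw [if_pos h]⟩
    · left; exact ⟨(x, y), by unfold n1; rw [if_neg h]⟩
  ext e
  constructor
  · rintro (⟨x, x', y, ⟨u, hu⟩, rfl⟩ | ⟨x, y, y', ⟨u, hu⟩, rfl⟩)
    · rw [Sym2.eq_iff] at hu
      rcases hu with ⟨rfl, rfl⟩ | ⟨rfl, rfl⟩
      · exact hx _ _
      · rw [Sym2.eq_swap]; exact hx _ _
    · rw [Sym2.eq_iff] at hu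
      rcases hu with ⟨rfl, rfl⟩ | ⟨rfl, rfl⟩
      · exact hy _ _
      · rw [Sym2.eq_swap]; exact hy _ _
  · rintro (⟨⟨x, y⟩, rfl⟩ | ⟨⟨x, y⟩, rfl⟩)
    · unfold n1
      split_ifs with h
      · left; exact ⟨x, x + 1, y, ⟨x, rfl⟩, rfl⟩
      · right; exact ⟨x, y, y + 1, ⟨y, rfl⟩, rfl⟩
    · unfold n2
      split_ifs with h
      · right; exact ⟨x, y, y + 1, ⟨y, rfl⟩, rfl⟩
      · left; exact ⟨x, x + 1, y, ⟨x, rfl⟩, rfl⟩

end

theorem k0 : StmK0 := by
  intro A B hB hBA hA hco
  have : NeZero A := ⟨by omega⟩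
  have : NeZero B := ⟨by omega⟩
  have hA3 := three_le A B hB hBA hA
  have hAB : 3 ≤ A * B := by nlinarith
  have hcard : Fintype.card (ZMod A × ZMod B) = A * B := by
    rw [Fintype.card_prod, ZMod.card, ZMod.card]
  refine ⟨![nE (n1 A B), nE (n2 A B)], ?_, ?_, ?_⟩
  · intro i
    fin_cases i
    · exact ishc_of_next (n1 A B) (c1 A B) (A * B) hAB hcard (c1_top A B hB hBA)
        (fun i j hi hj h => c1_inj A B i j hi hj h) (fun t _ => c1_succ A B hBA t)
    · exact ishc_of_next (n2 A B) (c2 A B) (A * B) hAB hcard (c2_top A B hB hBA)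
        (fun i j hi hj h => c2_inj A B hB hBA hco i j hi hj h)
        (fun t _ => c2_succ A B hBA t)
  · intro i j hij
    fin_cases i <;> fin_cases j
    · exact absurd rfl hij
    · exact n_disj A B hB hBA hA
    · exact (n_disj A B hB hBA hA).symm
    · exact absurd rfl hij
  · rw [n_union]
    ext e
    simp [Set.mem_iUnion, Fin.exists_fin_two]

theorem t0a : StmT0a := by
  intro A B hB hBA hA hco
  have : NeZero A := ⟨by omega⟩
  have : NeZero B := ⟨by omega⟩
  have hA3 := three_le A B hB hBA hA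
  have hAB : 3 ≤ A * B := by nlinarith
  have : NeZero (A * B) := ⟨by omega⟩
  have hcard : Fintype.card (ZMod A × ZMod B) = A * B := by
    rw [Fintype.card_prod, ZMod.card, ZMod.card]
  let φ : ZMod (A * B) → ZMod A × ZMod B := fun t => c1 A B t.val
  have hper : ∀ n k : ℕ, c1 A B (n + (A * B) * k) = c1 A B n := by
    intro n k
    induction k with
    | zero => simp
    | succ k ih => rw [Nat.mul_succ, ← add_assoc, c1_per A B hB hBA, ih]
  have hφ : ∀ n : ℕ, φ (n : ZMod (A * B)) = c1 A B n := by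
    intro n
    show c1 A B ((n : ZMod (A * B)).val) = _
    rw [ZMod.val_natCast]
    conv_rhs => rw [← Nat.mod_add_div n (A * B)]
    rw [hper]
  have hinj : Function.Injective φ := by
    intro t t' h
    exact ZMod.val_injective _ (c1_inj A B _ _ (ZMod.val_lt t) (ZMod.val_lt t') h)
  have hbij : Function.Bijective φ :=
    (Fintype.bijective_iff_injective_and_card _).2 ⟨hinj, by rw [ZMod.card, hcard]⟩
  have h1 : ∀ t, φ (t + 1) = n1 A B (φ t) := by
    intro t
    have e1 : t + 1 = ((t.val + 1 : ℕ) : ZMod (A * B)) := by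
      rw [Nat.cast_add, ZMod.natCast_zmod_val, Nat.cast_one]
    rw [e1, hφ, c1_succ A B hBA]
  have h2 : ∀ t, φ (sg A B t) = n2 A B (φ t) := by
    intro t
    have e0 : φ t = c1 A B t.val := rfl
    have hiff : sm A B (φ t) = -1 ↔ B ∣ t.val + 1 := by
      rw [e0, sm_c1 A B hBA t.val, neg_one_iff]
    unfold n2 sg
    by_cases h : t.val % B = B - 1
    · have hd : B ∣ t.val + 1 := by
        refine ⟨t.val / B + 1, ?_⟩
        have := Nat.div_add_mod t.val B
        rw [h] at this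
        rw [mul_add, mul_one]
        omega
      rw [if_pos h, if_pos (hiff.2 hd)]
      have hle : B - 1 ≤ t.val := by
        rw [← h]; exact Nat.mod_le _ _
      have e1 : t - ((B - 1 : ℕ) : ZMod (A * B)) = ((t.val - (B - 1) : ℕ) : ZMod (A * B)) := by
        rw [Nat.cast_sub hle, ZMod.natCast_zmod_val]
      rw [e1, hφ, e0]
      have e2 : t.val - (B - 1) = B * (t.val / B) := by
        have := Nat.div_add_mod t.val B
        rw [h] at this
        omega
      have e3 : (t.val - (B - 1)) / B = t.val / B := by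
        rw [e2, Nat.mul_div_cancel_left _ (by omega)]
      unfold c1
      rw [e3]
      refine Prod.ext rfl ?_
      simp only
      rw [Nat.cast_sub hle, Nat.cast_sub (by omega : 1 ≤ B)]
      simp
      ring
    · have hd : ¬ B ∣ t.val + 1 := by
        rintro ⟨k, hk⟩
        apply h
        have hk1 : 1 ≤ k := by
          rcases Nat.eq_zero_or_pos k with h0 | h0
          · rw [h0] at hk; simp at hk
          · exact h0
        obtain ⟨j, rfl⟩ : ∃ j, k = j + 1 := ⟨k - 1, by omega⟩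
        have : t.val = (B - 1) + B * j := by
          rw [mul_add, mul_one] at hk; omega
        rw [this, Nat.add_mul_mod_self_left, Nat.mod_eq_of_lt (by omega)]
      rw [if_neg h, if_neg (fun hh => hd (hiff.1 hh))]
      have e1 : t + ((B + 1 : ℕ) : ZMod (A * B)) = ((t.val + 1 + B : ℕ) : ZMod (A * B)) := by
        push_cast
        rw [ZMod.natCast_zmod_val]
        ring
      rw [e1, hφ, e0]
      have e3 : (t.val + 1 + B) / B = t.val / B + 1 := by
        rw [Nat.add_div_right _ (by omega), Nat.succ_div, if_neg hd]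
      unfold c1
      rw [e3]
      refine Prod.ext ?_ ?_
      · simp
      · simp
  have i1 : Sym2.map φ '' cyE (A * B) = nE (n1 A B) := by
    ext e
    constructor
    · rintro ⟨_, ⟨u, rfl⟩, rfl⟩
      exact ⟨φ u, by rw [Sym2.map_mk]; simp only [h1]⟩
    · rintro ⟨v, rfl⟩
      obtain ⟨u, rfl⟩ := hbij.2 v
      exact ⟨s(u, u + 1), ⟨u, rfl⟩, by rw [Sym2.map_mk]; simp only [h1]⟩
  have i2 : Sym2.map φ '' sgE A B = nE (n2 A B) := by
    ext e
    constructor
    · rintro ⟨_, ⟨u, rfl⟩, rfl⟩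
      exact ⟨φ u, by rw [Sym2.map_mk]; simp only [h2]⟩
    · rintro ⟨v, rfl⟩
      obtain ⟨u, rfl⟩ := hbij.2 v
      exact ⟨s(u, sg A B u), ⟨u, rfl⟩, by rw [Sym2.map_mk]; simp only [h2]⟩
  refine ⟨φ, hbij, ?_, ?_⟩
  · rw [Set.image_union, i1, i2, n_union]
  · rw [Set.disjoint_left]
    intro e he he'
    have := n_disj A B hB hBA hA
    rw [Set.disjoint_left] at this
    refine this (a := Sym2.map φ e) ?_ ?_
    · rw [← i1]; exact ⟨e, he, rfl⟩
    · rw [← i2]; exact ⟨e, he', rfl⟩

end Pool.Agent.K3h34.Erde
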